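import Pool.Agent.Lib.MP_069854_nt.MX.Mixed

/-!
Mixed moments with arbitrary shifts from the fourth, sixth and twelfth moments.
-/

open MeasureTheory

namespace Zmx

/-- summation over dyadic intervals -/
theorem dyadic {f : ℝ → ℝ} (hf : ∀ t, 0 ≤ f t) (hc : Continuous f) {β C : ℝ} (hβ : 1 ≤ β)
    (h : ∀ T, 1 ≤ T → ∫ t in T..(2 * T), f t ≤ C * T ^ β) :
    ∃ C' : ℝ, ∀ T : ℝ, 1 ≤ T → ∫ t in (0 : ℝ)..T, f t ≤ C' * T ^ β := by
  set A : ℝ := ∫ t in (0 : ℝ)..2, f t with hA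
  have hA0 : 0 ≤ A := intervalIntegral.integral_nonneg (by norm_num) (fun t _ => hf t)
  have hint : ∀ a b : ℝ, IntervalIntegrable f volume a b := fun a b => hc.intervalIntegrable a b
  have hC0 : 0 ≤ |C| := abs_nonneg C
  have key : ∀ n : ℕ, ∀ T : ℝ, 1 ≤ T → T ≤ 2 ^ (n + 1) →
      ∫ t in (0 : ℝ)..T, f t ≤ (A + |C|) * T ^ β := by
    intro n
    induction n with
    | zero =>
      intro T hT hT2
      have hT2' : T ≤ 2 := by simpa using hT2
      have h1 : ∫ t in (0 : ℝ)..T, f t ≤ A := by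
        have h3 := intervalIntegral.integral_add_adjacent_intervals (hint 0 T) (hint T 2)
        have h2 : 0 ≤ ∫ t in T..2, f t := intervalIntegral.integral_nonneg hT2' (fun t _ => hf t)
        linarith
      have h3 : 1 ≤ T ^ β := Real.one_le_rpow hT (by linarith)
      nlinarith
    | succ n ih =>
      intro T hT hT2
      by_cases hs : T ≤ 2
      · have h1 : ∫ t in (0 : ℝ)..T, f t ≤ A := by
          have h3 := intervalIntegral.integral_add_adjacent_intervals (hint 0 T) (hint T 2)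
          have h2 : 0 ≤ ∫ t in T..2, f t := intervalIntegral.integral_nonneg hs (fun t _ => hf t)
          linarith
        have h3 : 1 ≤ T ^ β := Real.one_le_rpow hT (by linarith)
        nlinarith
      · have hs' : 2 < T := not_le.mp hs
        have hh1 : 1 ≤ T / 2 := by linarith
        have hh2 : T / 2 ≤ 2 ^ (n + 1) := by
          rw [pow_succ] at hT2
          linarith
        have h1 := ih (T / 2) hh1 hh2
        have h2 := h (T / 2) hh1
        rw [show 2 * (T / 2) = T by ring] at h2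
        have h3 := intervalIntegral.integral_add_adjacent_intervals (hint 0 (T / 2)) (hint (T / 2) T)
        have h4 : (T : ℝ) ^ β = 2 ^ β * (T / 2) ^ β := by
          rw [← Real.mul_rpow (by norm_num) (by linarith)]
          congr 1
          ring
        have h5 : (2 : ℝ) ≤ 2 ^ β := by
          calc (2 : ℝ) = 2 ^ (1 : ℝ) := by norm_num
            _ ≤ 2 ^ β := Real.rpow_le_rpow_of_exponent_le (by norm_num) hβ
        have h6 : 0 ≤ (T / 2) ^ β := Real.rpow_nonneg (by linarith) _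
        have h8 : C * (T / 2) ^ β ≤ |C| * (T / 2) ^ β :=
          mul_le_mul_of_nonneg_right (le_abs_self C) h6
        rw [← h3, h4]
        have h7 : (A + |C| + |C|) * (T / 2) ^ β ≤ (A + |C|) * (2 ^ β * (T / 2) ^ β) := by
          have : A + |C| + |C| ≤ (A + |C|) * 2 ^ β := by nlinarith
          calc (A + |C| + |C|) * (T / 2) ^ β ≤ ((A + |C|) * 2 ^ β) * (T / 2) ^ β :=
                mul_le_mul_of_nonneg_right this h6
            _ = _ := by ring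
        linarith
  refine ⟨A + |C|, fun T hT => ?_⟩
  obtain ⟨n, hn⟩ := pow_unbounded_of_one_lt T (by norm_num : (1 : ℝ) < 2)
  exact key n T hT (by rw [pow_succ]; nlinarith)

/-- the fourth moment on dyadic intervals -/
def Fourth : Prop := ∀ e : ℝ, 0 < e → ∃ C : ℝ, ∀ T : ℝ, 1 ≤ T →
  ∫ t in T..(2 * T), ‖riemannZeta (1 / 2 + t * Complex.I)‖ ^ 4 ≤ C * T ^ (1 + e)

/-- the twelfth moment on dyadic intervals -/
def Twelfth : Prop := ∀ e : ℝ, 0 < e → ∃ C : ℝ, ∀ T : ℝ, 1 ≤ T →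
  ∫ t in T..(2 * T), ‖riemannZeta (1 / 2 + t * Complex.I)‖ ^ 12 ≤ C * T ^ (2 + e)

/-- a saving in the sixth moment -/
def Sixth (δ : ℝ) : Prop := ∃ C : ℝ, ∀ T : ℝ, 1 ≤ T →
  ∫ t in (0 : ℝ)..T, ‖riemannZeta (1 / 2 + t * Complex.I)‖ ^ 6 ≤ C * T ^ (5 / 4 - δ)

theorem fourth_conv (h : Fourth) : ∀ e : ℝ, 0 < e → ∃ C : ℝ, ∀ T : ℝ, 1 ≤ T →
    ∫ t in (0 : ℝ)..T, Z t ^ (4 : ℝ) ≤ C * T ^ (1 + e) := by
  intro e he
  obtain ⟨C, hC⟩ := h e he
  refine dyadic (fun t => Zp_nonneg _ t) (Zp_continuous (by norm_num)) (by linarith)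
    (C := C) fun T hT => ?_
  refine le_trans (le_of_eq ?_) (hC T hT)
  refine intervalIntegral.integral_congr fun t _ => ?_
  simp only [Z]
  norm_cast

theorem twelfth_conv (h : Twelfth) : ∀ e : ℝ, 0 < e → ∃ C : ℝ, ∀ T : ℝ, 1 ≤ T →
    ∫ t in (0 : ℝ)..T, Z t ^ (12 : ℝ) ≤ C * T ^ (2 + e) := by
  intro e he
  obtain ⟨C, hC⟩ := h e he
  refine dyadic (fun t => Zp_nonneg _ t) (Zp_continuous (by norm_num)) (by linarith)
    (C := C) fun T hT => ?_
  refine le_trans (le_of_eq ?_) (hC T hT)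
  refine intervalIntegral.integral_congr fun t _ => ?_
  simp only [Z]
  norm_cast

theorem sixth_conv {δ : ℝ} (h : Sixth δ) : ∃ C : ℝ, ∀ T : ℝ, 1 ≤ T →
    ∫ t in (0 : ℝ)..T, Z t ^ (6 : ℝ) ≤ C * T ^ (5 / 4 - δ) := by
  obtain ⟨C, hC⟩ := h
  refine ⟨C, fun T hT => ?_⟩
  refine le_trans (le_of_eq ?_) (hC T hT)
  refine intervalIntegral.integral_congr fun t _ => ?_
  simp only [Z]
  norm_cast

/-- a saving in the moment of every order between 4 and 12 -/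
theorem every_order {δ : ℝ} (hδ : 0 < δ) (h4 : Fourth) (h6 : Sixth δ) (h12 : Twelfth) {A : ℝ}
    (hA4 : 4 < A) (hA12 : A < 12) {δ' : ℝ} (hδ' : δ' < δ * min ((A - 4) / 2) ((12 - A) / 6)) :
    ∃ C : ℝ, ∀ T : ℝ, 1 ≤ T → ∫ t in (0 : ℝ)..T, Z t ^ A ≤ C * T ^ (1 + (A - 4) / 8 - δ') :=
  all_orders hδ (fourth_conv h4) (sixth_conv h6) (twelfth_conv h12) hA4 hA12 hδ'

/-- mixed moments with arbitrary shifts -/
theorem every_mixed {δ : ℝ} (hδ : 0 < δ) (h4 : Fourth) (h6 : Sixth δ) (h12 : Twelfth) {A : ℝ}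
    (hA4 : 4 < A) (hA12 : A < 12) {δ' : ℝ} (hδ' : δ' < δ * min ((A - 4) / 2) ((12 - A) / 6)) :
    ∃ C : ℝ, ∀ (m : ℕ) (p x : Fin m → ℝ), (∀ j, 0 ≤ p j) → ∑ j, p j = A →
      ∀ T : ℝ, 1 ≤ T → (∀ j, |x j| ≤ T) →
        ∫ t in (0 : ℝ)..T, ∏ j, Z (t + x j) ^ p j ≤ C * T ^ (1 + (A - 4) / 8 - δ') := by
  obtain ⟨C, hC⟩ := every_order hδ h4 h6 h12 hA4 hA12 hδ'
  exact ⟨2 * 2 ^ (1 + (A - 4) / 8 - δ') * C, fun m p x hp hsum T hT hx =>
    mixed (by linarith) hC p hp hsum T hT x hx⟩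

/-- `Q_k(α,T)` for `k = 3, 4, 5` -/
theorem every_Q {δ : ℝ} (hδ : 0 < δ) (h4 : Fourth) (h6 : Sixth δ) (h12 : Twelfth) {k : ℕ}
    (hk3 : 3 ≤ k) (hk5 : k ≤ 5) {δ' : ℝ}
    (hδ' : δ' < δ * min ((k : ℝ) - 2) ((6 - (k : ℝ)) / 3)) :
    ∃ C : ℝ, ∀ T : ℝ, 3 ≤ T → ∀ α : ℝ, |α| ≤ T * Real.log T →
      ‖Q k α T‖ ≤ C * T ^ (((k : ℝ) - 2) / 4 - δ') := by
  have hk3' : (3 : ℝ) ≤ k := by exact_mod_cast hk3
  have hk5' : (k : ℝ) ≤ 5 := by exact_mod_cast hk5
  have e2 : δ * min ((k : ℝ) - 2) ((6 - (k : ℝ)) / 3) =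
      δ * min ((2 * (k : ℝ) - 4) / 2) ((12 - 2 * (k : ℝ)) / 6) := by
    congr 2
    · ring
    · ring
  rw [e2] at hδ'
  obtain ⟨C, hC⟩ := every_order hδ h4 h6 h12 (A := 2 * (k : ℝ)) (by linarith) (by linarith) hδ'
  refine ⟨2 * 2 ^ (1 + (2 * (k : ℝ) - 4) / 8 - δ') * C, fun T hT α hα => ?_⟩
  have h := Q_bound (k := k) (θ := 1 + (2 * (k : ℝ) - 4) / 8 - δ') (C := C) (by omega)
    (by
      intro T hT
      have := hC T hT
      push_cast
      exact this) T hT α hα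
  refine h.trans (le_of_eq ?_)
  congr 2
  ring

end Zmx

namespace Zmx

/-- a saving in the moment of every order between 4 and 6, from the orders 4 and 6 -/
theorem every_order6 {δ : ℝ} (hδ : 0 < δ) (h4 : Fourth) (h6 : Sixth δ) {A : ℝ}
    (hA4 : 4 < A) (hA6 : A ≤ 6) {δ' : ℝ} (hδ' : δ' < δ * ((A - 4) / 2)) :
    ∃ C : ℝ, ∀ T : ℝ, 1 ≤ T → ∫ t in (0 : ℝ)..T, Z t ^ A ≤ C * T ^ (1 + (A - 4) / 8 - δ') := by
  obtain ⟨C6, hC6⟩ := sixth_conv h6
  rcases eq_or_lt_of_le hA6 with h | h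
  · subst h
    exact weaken (by linarith) hC6
  · set s : ℝ := (A - 4) / 2 with hs
    have hs0 : 0 < s := by rw [hs]; linarith
    have hs1 : s < 1 := by rw [hs]; linarith
    obtain ⟨C4, hC4⟩ := fourth_conv h4 (δ * s - δ') (by linarith)
    obtain ⟨C, hC⟩ := interp (a := 4) (b := 6) (by norm_num) (by norm_num) hs0 hs1 hC4 hC6
    have e1 : (4 : ℝ) * (1 - s) + 6 * s = A := by rw [hs]; ring
    rw [e1] at hC
    refine weaken ?_ hC
    have e2 : (1 + (δ * s - δ')) * (1 - s) + (5 / 4 - δ) * s =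
        1 + (A - 4) / 8 - δ * s + (δ * s - δ') * (1 - s) := by rw [hs]; ring
    rw [e2]
    nlinarith

end Zmx
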