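import Mathlib

/-!
Moments of `|ζ(1/2+it)|` of real order `A` and mixed moments with arbitrary shifts:
Hölder interpolation, translation, weighted arithmetic-geometric mean.
-/

open MeasureTheory

namespace Zmx

/-- `|ζ(1/2+it)|` -/
noncomputable def Z (t : ℝ) : ℝ := ‖riemannZeta (1 / 2 + t * Complex.I)‖

theorem Z_nonneg (t : ℝ) : 0 ≤ Z t := norm_nonneg _

theorem Z_continuous : Continuous Z := by
  have h : Continuous (fun t : ℝ => riemannZeta (1 / 2 + t * Complex.I)) := by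
    rw [continuous_iff_continuousAt]
    intro t
    have h1 : (1 / 2 + (t : ℂ) * Complex.I) ≠ 1 := by
      intro h
      have := congrArg Complex.re h
      norm_num at this
    have h2 : ContinuousAt riemannZeta (1 / 2 + (t : ℂ) * Complex.I) :=
      (differentiableAt_riemannZeta h1).continuousAt
    have h3 : ContinuousAt (fun t : ℝ => (1 / 2 + (t : ℂ) * Complex.I)) t := by fun_prop
    exact ContinuousAt.comp (f := fun t : ℝ => (1 / 2 + (t : ℂ) * Complex.I)) (g := riemannZeta) h2 h3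
  exact h.norm

theorem Z_neg (t : ℝ) : Z (-t) = Z t := by
  unfold Z
  have h : (1 / 2 + ((-t : ℝ) : ℂ) * Complex.I) =
      (starRingEnd ℂ) (1 / 2 + (t : ℂ) * Complex.I) := by
    rw [map_add, map_mul, Complex.conj_I, Complex.conj_ofReal]
    have : (starRingEnd ℂ) (1 / 2 : ℂ) = 1 / 2 := by
      rw [map_div₀, map_one]
      norm_num [Complex.conj_ofNat]
    rw [this]
    push_cast
    ring
  rw [h, riemannZeta_conj, Complex.norm_conj]

theorem Zp_continuous {A : ℝ} (hA : 0 ≤ A) : Continuous fun t => Z t ^ A :=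
  Z_continuous.rpow_const fun _ => Or.inr hA

theorem Zp_nonneg (A t : ℝ) : 0 ≤ Z t ^ A := Real.rpow_nonneg (Z_nonneg t) A

/-- Hölder interpolation between two moments -/
theorem holder {a b s T : ℝ} (ha : 0 ≤ a) (hb : 0 ≤ b) (hs0 : 0 < s) (hs1 : s < 1) (hT : 0 ≤ T) :
    ∫ t in (0 : ℝ)..T, Z t ^ (a * (1 - s) + b * s) ≤
      (∫ t in (0 : ℝ)..T, Z t ^ a) ^ (1 - s) * (∫ t in (0 : ℝ)..T, Z t ^ b) ^ s := by
  rw [intervalIntegral.integral_of_le hT, intervalIntegral.integral_of_le hT,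
    intervalIntegral.integral_of_le hT]
  have hs1' : 0 < 1 - s := by linarith
  have hpq : (1 / (1 - s)).HolderConjugate (1 / s) := by
    refine Real.holderConjugate_iff.2 ⟨?_, ?_⟩
    · rw [lt_div_iff₀ hs1']
      linarith
    · rw [one_div, one_div, inv_inv, inv_inv]
      ring
  have hmem : ∀ c : ℝ, 0 ≤ c → ∀ p : ENNReal, MemLp (fun t => Z t ^ c) p (volume.restrict (Set.Ioc 0 T)) := by
    intro c hc p
    have h1 : ContinuousOn (fun t => Z t ^ c) (Set.Icc 0 T) := (Zp_continuous hc).continuousOn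
    obtain ⟨M, hM⟩ := (isCompact_Icc (a := (0 : ℝ)) (b := T)).exists_bound_of_continuousOn h1
    refine MemLp.of_bound (Zp_continuous hc).aestronglyMeasurable M ?_
    refine (ae_restrict_iff' measurableSet_Ioc).2 (Filter.Eventually.of_forall fun t ht => ?_)
    exact hM t ⟨ht.1.le, ht.2⟩
  have h := integral_mul_le_Lp_mul_Lq_of_nonneg (μ := volume.restrict (Set.Ioc 0 T)) hpq
    (f := fun t => Z t ^ (a * (1 - s))) (g := fun t => Z t ^ (b * s))
    (Filter.Eventually.of_forall fun t => Zp_nonneg _ t)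
    (Filter.Eventually.of_forall fun t => Zp_nonneg _ t)
    (hmem _ (by positivity) _) (hmem _ (by positivity) _)
  have e1 : ∀ t, Z t ^ (a * (1 - s) + b * s) = Z t ^ (a * (1 - s)) * Z t ^ (b * s) := by
    intro t
    rcases eq_or_lt_of_le (Z_nonneg t) with h0 | h0
    · rw [← h0]
      by_cases hz : a * (1 - s) + b * s = 0
      · have hz1 : a * (1 - s) = 0 := by
          have : 0 ≤ a * (1 - s) := by positivity
          have : 0 ≤ b * s := by positivity
          linarith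
        have hz2 : b * s = 0 := by linarith
        rw [hz, hz1, hz2]
        simp
      · rw [Real.zero_rpow hz]
        by_cases hz1 : a * (1 - s) = 0
        · have hz2 : b * s ≠ 0 := by
            intro h2
            apply hz
            rw [hz1, h2, add_zero]
          rw [Real.zero_rpow hz2, mul_zero]
        · rw [Real.zero_rpow hz1, zero_mul]
    · exact Real.rpow_add h0 _ _
  have e2 : ∀ t, (Z t ^ (a * (1 - s))) ^ (1 / (1 - s)) = Z t ^ a := by
    intro t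
    rw [← Real.rpow_mul (Z_nonneg t)]
    congr 1
    field_simp
  have e3 : ∀ t, (Z t ^ (b * s)) ^ (1 / s) = Z t ^ b := by
    intro t
    rw [← Real.rpow_mul (Z_nonneg t)]
    congr 1
    field_simp
  simp only [e2, e3] at h
  simp only [e1]
  have e4 : 1 / (1 / (1 - s)) = 1 - s := by rw [one_div_one_div]
  have e5 : 1 / (1 / s) = s := by rw [one_div_one_div]
  rw [e4, e5] at h
  exact h

/-- interpolation of power bounds -/
theorem interp {a b α β s Ca Cb : ℝ} (ha : 0 ≤ a) (hb : 0 ≤ b) (hs0 : 0 < s) (hs1 : s < 1)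
    (h1 : ∀ T : ℝ, 1 ≤ T → ∫ t in (0 : ℝ)..T, Z t ^ a ≤ Ca * T ^ α)
    (h2 : ∀ T : ℝ, 1 ≤ T → ∫ t in (0 : ℝ)..T, Z t ^ b ≤ Cb * T ^ β) :
    ∃ C : ℝ, ∀ T : ℝ, 1 ≤ T →
      ∫ t in (0 : ℝ)..T, Z t ^ (a * (1 - s) + b * s) ≤ C * T ^ (α * (1 - s) + β * s) := by
  have hs1' : 0 < 1 - s := by linarith
  refine ⟨|Ca| ^ (1 - s) * |Cb| ^ s, fun T hT => ?_⟩
  have hT0 : 0 < T := by linarith
  refine (holder ha hb hs0 hs1 hT0.le).trans ?_
  have i1 : 0 ≤ ∫ t in (0 : ℝ)..T, Z t ^ a :=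
    intervalIntegral.integral_nonneg hT0.le fun t _ => Zp_nonneg _ t
  have i2 : 0 ≤ ∫ t in (0 : ℝ)..T, Z t ^ b :=
    intervalIntegral.integral_nonneg hT0.le fun t _ => Zp_nonneg _ t
  have pα : 0 ≤ T ^ α := Real.rpow_nonneg hT0.le _
  have pβ : 0 ≤ T ^ β := Real.rpow_nonneg hT0.le _
  have j1 : (∫ t in (0 : ℝ)..T, Z t ^ a) ^ (1 - s) ≤ (|Ca| * T ^ α) ^ (1 - s) :=
    Real.rpow_le_rpow i1 ((h1 T hT).trans (mul_le_mul_of_nonneg_right (le_abs_self _) pα)) hs1'.le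
  have j2 : (∫ t in (0 : ℝ)..T, Z t ^ b) ^ s ≤ (|Cb| * T ^ β) ^ s :=
    Real.rpow_le_rpow i2 ((h2 T hT).trans (mul_le_mul_of_nonneg_right (le_abs_self _) pβ)) hs0.le
  refine (mul_le_mul j1 j2 (Real.rpow_nonneg i2 _) (Real.rpow_nonneg (by positivity) _)).trans
    (le_of_eq ?_)
  rw [Real.mul_rpow (abs_nonneg _) pα, Real.mul_rpow (abs_nonneg _) pβ, ← Real.rpow_mul hT0.le,
    ← Real.rpow_mul hT0.le, Real.rpow_add hT0]
  ring

/-- weakening of the exponent -/
theorem weaken {A α β C : ℝ} (hαβ : α ≤ β)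
    (h : ∀ T : ℝ, 1 ≤ T → ∫ t in (0 : ℝ)..T, Z t ^ A ≤ C * T ^ α) :
    ∃ C' : ℝ, ∀ T : ℝ, 1 ≤ T → ∫ t in (0 : ℝ)..T, Z t ^ A ≤ C' * T ^ β := by
  refine ⟨|C|, fun T hT => (h T hT).trans ?_⟩
  have h1 : T ^ α ≤ T ^ β := Real.rpow_le_rpow_of_exponent_le hT hαβ
  have h2 : 0 ≤ T ^ α := Real.rpow_nonneg (by linarith) _
  exact (mul_le_mul_of_nonneg_right (le_abs_self C) h2).trans
    (mul_le_mul_of_nonneg_left h1 (abs_nonneg C))

/-- all orders between 4 and 12 from the orders 4, 6 and 12 -/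
theorem all_orders {δ : ℝ} (hδ : 0 < δ)
    (h4 : ∀ e : ℝ, 0 < e → ∃ C : ℝ, ∀ T : ℝ, 1 ≤ T → ∫ t in (0 : ℝ)..T, Z t ^ (4 : ℝ) ≤ C * T ^ (1 + e))
    (h6 : ∃ C : ℝ, ∀ T : ℝ, 1 ≤ T → ∫ t in (0 : ℝ)..T, Z t ^ (6 : ℝ) ≤ C * T ^ (5 / 4 - δ))
    (h12 : ∀ e : ℝ, 0 < e → ∃ C : ℝ, ∀ T : ℝ, 1 ≤ T →
      ∫ t in (0 : ℝ)..T, Z t ^ (12 : ℝ) ≤ C * T ^ (2 + e))
    {A : ℝ} (hA4 : 4 < A) (hA12 : A < 12) {δ' : ℝ} (hδ' : δ' < δ * min ((A - 4) / 2) ((12 - A) / 6)) :
    ∃ C : ℝ, ∀ T : ℝ, 1 ≤ T → ∫ t in (0 : ℝ)..T, Z t ^ A ≤ C * T ^ (1 + (A - 4) / 8 - δ') := by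
  obtain ⟨C6, hC6⟩ := h6
  rcases lt_trichotomy A 6 with h | h | h
  · set s : ℝ := (A - 4) / 2 with hs
    have hs0 : 0 < s := by rw [hs]; linarith
    have hs1 : s < 1 := by rw [hs]; linarith
    have hmin : δ' < δ * s := hδ'.trans_le (mul_le_mul_of_nonneg_left (min_le_left _ _) hδ.le)
    obtain ⟨C4, hC4⟩ := h4 (δ * s - δ') (by linarith)
    obtain ⟨C, hC⟩ := interp (a := 4) (b := 6) (by norm_num) (by norm_num) hs0 hs1 hC4 hC6
    have e1 : (4 : ℝ) * (1 - s) + 6 * s = A := by rw [hs]; ring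
    rw [e1] at hC
    refine weaken ?_ hC
    have e2 : (1 + (δ * s - δ')) * (1 - s) + (5 / 4 - δ) * s =
        1 + (A - 4) / 8 - δ * s + (δ * s - δ') * (1 - s) := by rw [hs]; ring
    rw [e2]
    nlinarith
  · subst h
    refine weaken ?_ hC6
    have hmin : δ' < δ * 1 := by
      refine hδ'.trans_le (mul_le_mul_of_nonneg_left ?_ hδ.le)
      refine (min_le_left _ _).trans ?_
      norm_num
    linarith
  · set s : ℝ := (A - 6) / 6 with hs
    have hs0 : 0 < s := by rw [hs]; linarith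
    have hs1 : s < 1 := by rw [hs]; linarith
    have hmin : δ' < δ * (1 - s) := by
      refine hδ'.trans_le (mul_le_mul_of_nonneg_left ?_ hδ.le)
      refine (min_le_right _ _).trans (le_of_eq ?_)
      rw [hs]
      ring
    obtain ⟨C12, hC12⟩ := h12 (δ * (1 - s) - δ') (by linarith)
    obtain ⟨C, hC⟩ := interp (a := 6) (b := 12) (by norm_num) (by norm_num) hs0 hs1 hC6 hC12
    have e1 : (6 : ℝ) * (1 - s) + 12 * s = A := by rw [hs]; ring
    rw [e1] at hC
    refine weaken ?_ hC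
    have e2 : (5 / 4 - δ) * (1 - s) + (2 + (δ * (1 - s) - δ')) * s =
        1 + (A - 4) / 8 - δ * (1 - s) + (δ * (1 - s) - δ') * s := by rw [hs]; ring
    rw [e2]
    nlinarith

/-- translation -/
theorem shift_int {A θ C : ℝ} (hA : 0 ≤ A)
    (hC : ∀ T : ℝ, 1 ≤ T → ∫ t in (0 : ℝ)..T, Z t ^ A ≤ C * T ^ θ) (T : ℝ) (hT : 1 ≤ T) (x : ℝ)
    (hx : |x| ≤ T) : ∫ t in (0 : ℝ)..T, Z (t + x) ^ A ≤ 2 * 2 ^ θ * C * T ^ θ := by
  have hc := Zp_continuous hA
  have hi : ∀ a b : ℝ, IntervalIntegrable (fun t => Z t ^ A) volume a b :=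
    fun a b => hc.intervalIntegrable a b
  rw [abs_le] at hx
  have h1 : ∫ t in (0 : ℝ)..T, Z (t + x) ^ A = ∫ t in x..(T + x), Z t ^ A := by
    rw [intervalIntegral.integral_comp_add_right (fun t => Z t ^ A) x, zero_add]
  have h2 : ∫ t in x..(T + x), Z t ^ A ≤ ∫ t in (-(2 * T))..(2 * T), Z t ^ A := by
    refine intervalIntegral.integral_mono_interval (by linarith) (by linarith) (by linarith)
      (Filter.Eventually.of_forall fun t => Zp_nonneg _ t) (hi _ _)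
  have h3 : ∫ t in (-(2 * T))..(2 * T), Z t ^ A = 2 * ∫ t in (0 : ℝ)..(2 * T), Z t ^ A := by
    rw [← intervalIntegral.integral_add_adjacent_intervals (hi (-(2 * T)) 0) (hi 0 (2 * T))]
    have h4 : ∫ t in (-(2 * T))..0, Z t ^ A = ∫ t in (0 : ℝ)..(2 * T), Z t ^ A := by
      have h5 := intervalIntegral.integral_comp_neg (a := 0) (b := 2 * T) (fun t => Z t ^ A)
      rw [neg_zero] at h5
      rw [← h5]
      refine intervalIntegral.integral_congr fun t _ => ?_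
      simp only [Z_neg]
    rw [h4]
    ring
  have h4 := hC (2 * T) (by linarith)
  rw [h1]
  refine h2.trans ?_
  rw [h3]
  refine (mul_le_mul_of_nonneg_left h4 (by norm_num)).trans (le_of_eq ?_)
  rw [Real.mul_rpow (by norm_num) (by linarith)]
  ring

/-- mixed moments with arbitrary shifts -/
theorem mixed {A θ C : ℝ} (hA : 0 < A)
    (hC : ∀ T : ℝ, 1 ≤ T → ∫ t in (0 : ℝ)..T, Z t ^ A ≤ C * T ^ θ) {m : ℕ} (p : Fin m → ℝ)
    (hp : ∀ j, 0 ≤ p j) (hsum : ∑ j, p j = A) (T : ℝ) (hT : 1 ≤ T) (x : Fin m → ℝ)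
    (hx : ∀ j, |x j| ≤ T) :
    ∫ t in (0 : ℝ)..T, ∏ j, Z (t + x j) ^ p j ≤ 2 * 2 ^ θ * C * T ^ θ := by
  have hT0 : (0 : ℝ) ≤ T := by linarith
  have hcA : ∀ y : ℝ, Continuous fun t => Z (t + y) ^ A := fun y =>
    (Zp_continuous hA.le).comp (continuous_id.add continuous_const)
  have hcp : Continuous fun t => ∏ j, Z (t + x j) ^ p j := by
    refine continuous_finsetProd _ fun j _ => ?_
    exact (Zp_continuous (hp j)).comp (continuous_id.add continuous_const)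
  have hpt : ∀ t : ℝ, ∏ j, Z (t + x j) ^ p j ≤ ∑ j, p j / A * Z (t + x j) ^ A := by
    intro t
    have h := Real.geom_mean_le_arith_mean_weighted (Finset.univ : Finset (Fin m))
      (fun j => p j / A) (fun j => Z (t + x j) ^ A)
      (fun j _ => div_nonneg (hp j) hA.le)
      (by rw [← Finset.sum_div, hsum, div_self hA.ne'])
      (fun j _ => Zp_nonneg _ _)
    refine le_trans (le_of_eq ?_) h
    refine Finset.prod_congr rfl fun j _ => ?_
    rw [← Real.rpow_mul (Z_nonneg _)]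
    congr 1
    field_simp
  have h1 : ∫ t in (0 : ℝ)..T, ∏ j, Z (t + x j) ^ p j ≤
      ∫ t in (0 : ℝ)..T, ∑ j, p j / A * Z (t + x j) ^ A := by
    refine intervalIntegral.integral_mono_on hT0 (hcp.intervalIntegrable _ _) ?_ fun t _ => hpt t
    refine Continuous.intervalIntegrable ?_ _ _
    exact continuous_finsetSum _ fun j _ => continuous_const.mul (hcA _)
  refine h1.trans ?_
  have h3 : ∫ t in (0 : ℝ)..T, ∑ j, p j / A * Z (t + x j) ^ A =
      ∑ j, ∫ t in (0 : ℝ)..T, p j / A * Z (t + x j) ^ A := by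
    refine intervalIntegral.integral_finsetSum fun j _ => ?_
    exact (Continuous.mul (g := fun t => Z (t + x j) ^ A) (continuous_const (y := p j / A))
      (hcA (x j))).intervalIntegrable _ _
  rw [h3]
  have h2 : ∀ j ∈ (Finset.univ : Finset (Fin m)),
      ∫ t in (0 : ℝ)..T, p j / A * Z (t + x j) ^ A ≤ p j / A * (2 * 2 ^ θ * C * T ^ θ) := by
    intro j _
    rw [intervalIntegral.integral_const_mul]
    exact mul_le_mul_of_nonneg_left (shift_int hA.le hC T hT (x j) (hx j)) (div_nonneg (hp j) hA.le)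
  refine (Finset.sum_le_sum h2).trans (le_of_eq ?_)
  rw [← Finset.sum_mul, ← Finset.sum_div, hsum, div_self hA.ne', one_mul]

/-- two shifts `± x`, exponents `k` -/
theorem two_shifts {k : ℕ} (hk : 0 < k) {θ C : ℝ}
    (hC : ∀ T : ℝ, 1 ≤ T → ∫ t in (0 : ℝ)..T, Z t ^ ((2 * k : ℕ) : ℝ) ≤ C * T ^ θ)
    (T : ℝ) (hT : 1 ≤ T) (x : ℝ) (hx : |x| ≤ T) :
    ∫ t in (0 : ℝ)..T, Z (t + x) ^ k * Z (t - x) ^ k ≤ 2 * 2 ^ θ * C * T ^ θ := by
  have hk' : (0 : ℝ) < ((2 * k : ℕ) : ℝ) := by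
    have : 0 < 2 * k := by omega
    exact_mod_cast this
  have h := mixed hk' hC (m := 2) (fun _ => (k : ℝ)) (fun _ => Nat.cast_nonneg k)
    (by rw [Fin.sum_univ_two]; push_cast; ring) T hT ![x, -x]
    (by
      intro j
      fin_cases j
      · exact hx
      · change |(-x)| ≤ T
        rwa [abs_neg])
  refine le_trans (le_of_eq ?_) h
  refine intervalIntegral.integral_congr fun t _ => ?_
  simp only [Fin.prod_univ_two, Real.rpow_natCast]
  rfl

/-- `Q_k(α,T)` of the problem -/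
noncomputable def Q (k : ℕ) (α T : ℝ) : ℂ :=
  (T : ℂ)⁻¹ * ((Real.log T : ℂ) ^ (k ^ 2))⁻¹ *
    ∫ t in (0 : ℝ)..T, riemannZeta (1 / 2 + Complex.I * α / Real.log T + Complex.I * t) ^ k *
      riemannZeta (1 / 2 + Complex.I * α / Real.log T - Complex.I * t) ^ k

theorem Q_bound {k : ℕ} (hk : 0 < k) {θ C : ℝ}
    (hC : ∀ T : ℝ, 1 ≤ T → ∫ t in (0 : ℝ)..T, Z t ^ ((2 * k : ℕ) : ℝ) ≤ C * T ^ θ)
    (T : ℝ) (hT : 3 ≤ T) (α : ℝ) (hα : |α| ≤ T * Real.log T) :
    ‖Q k α T‖ ≤ 2 * 2 ^ θ * C * T ^ (θ - 1) := by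
  have hT0 : 0 < T := by linarith
  have hlog : 1 ≤ Real.log T := by
    rw [Real.le_log_iff_exp_le hT0]
    exact Real.exp_one_lt_d9.le.trans (by norm_num; linarith)
  have hl0 : 0 < Real.log T := by linarith
  set x : ℝ := α / Real.log T with hx
  have hxT : |x| ≤ T := by
    rw [hx, abs_div, abs_of_pos hl0, div_le_iff₀ hl0]
    exact hα
  have h1 : ‖∫ t in (0 : ℝ)..T, riemannZeta (1 / 2 + Complex.I * α / Real.log T + Complex.I * t) ^ k *
      riemannZeta (1 / 2 + Complex.I * α / Real.log T - Complex.I * t) ^ k‖ ≤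
      ∫ t in (0 : ℝ)..T, Z (t + x) ^ k * Z (t - x) ^ k := by
    refine (intervalIntegral.norm_integral_le_integral_norm hT0.le).trans (le_of_eq ?_)
    refine intervalIntegral.integral_congr fun t _ => ?_
    simp only [norm_mul, norm_pow]
    have e1 : (1 / 2 + Complex.I * α / Real.log T + Complex.I * t : ℂ) =
        1 / 2 + ((t + x : ℝ) : ℂ) * Complex.I := by
      rw [hx]
      push_cast
      ring
    have e2 : (1 / 2 + Complex.I * α / Real.log T - Complex.I * t : ℂ) =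
        1 / 2 + ((-(t - x) : ℝ) : ℂ) * Complex.I := by
      rw [hx]
      push_cast
      ring
    have e3 : ‖riemannZeta (1 / 2 + Complex.I * α / Real.log T + Complex.I * t)‖ = Z (t + x) := by
      rw [e1]
      rfl
    have e4 : ‖riemannZeta (1 / 2 + Complex.I * α / Real.log T - Complex.I * t)‖ = Z (t - x) := by
      rw [e2, ← Z_neg (t - x)]
      rfl
    rw [e3, e4]
  have h2 := two_shifts hk hC T (by linarith) x hxT
  unfold Q
  rw [norm_mul, norm_mul, norm_inv, norm_inv, norm_pow, Complex.norm_real, Complex.norm_real,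
    Real.norm_of_nonneg hT0.le, Real.norm_of_nonneg hl0.le]
  have h3 : ((Real.log T) ^ (k ^ 2))⁻¹ ≤ 1 := inv_le_one_of_one_le₀ (one_le_pow₀ hlog)
  have h4 : 0 ≤ ((Real.log T) ^ (k ^ 2))⁻¹ := by positivity
  have h5 := h1.trans h2
  have h6 : T⁻¹ * ((Real.log T) ^ (k ^ 2))⁻¹ ≤ T⁻¹ * 1 :=
    mul_le_mul_of_nonneg_left h3 (by positivity)
  have h7 : 0 ≤ 2 * 2 ^ θ * C * T ^ θ := (norm_nonneg _).trans h5
  refine (mul_le_mul h6 h5 (norm_nonneg _) (by positivity)).trans (le_of_eq ?_)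
  rw [Real.rpow_sub_one hT0.ne']
  ring

end Zmx
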