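import Pool.Agent.Lib.MP_069854_nt.MX.Final

/-!
Shifted moments with arbitrary shifts.
-/

open MeasureTheory

namespace Zmx

/-- `T^{-1} (log T)^{-k²} ∫_0^T ∏_{j<k} ζ(1/2+ia_j+it) ζ(1/2+ib_j-it) dt` -/
noncomputable def QS (k : ℕ) (a b : Fin k → ℝ) (T : ℝ) : ℂ :=
  (T : ℂ)⁻¹ * ((Real.log T : ℂ) ^ (k ^ 2))⁻¹ *
    ∫ t in (0 : ℝ)..T, ∏ j, (riemannZeta (1 / 2 + Complex.I * a j + Complex.I * t) *
      riemannZeta (1 / 2 + Complex.I * b j - Complex.I * t))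

theorem QS_bound {k : ℕ} (hk : 0 < k) {θ C : ℝ}
    (hC : ∀ T : ℝ, 1 ≤ T → ∫ t in (0 : ℝ)..T, Z t ^ (2 * (k : ℝ)) ≤ C * T ^ θ)
    (T : ℝ) (hT : 3 ≤ T) (a b : Fin k → ℝ) (ha : ∀ j, |a j| ≤ T) (hb : ∀ j, |b j| ≤ T) :
    ‖QS k a b T‖ ≤ 2 * 2 ^ θ * C * T ^ (θ - 1) := by
  have hT0 : 0 < T := by linarith
  have hlog : 1 ≤ Real.log T := by
    rw [Real.le_log_iff_exp_le hT0]
    exact Real.exp_one_lt_d9.le.trans (by norm_num; linarith)
  have hl0 : 0 < Real.log T := by linarith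
  have hk' : (0 : ℝ) < 2 * (k : ℝ) := by
    have : (0 : ℝ) < k := by exact_mod_cast hk
    linarith
  set x : Fin (k + k) → ℝ := Fin.append a (fun j => -b j) with hx
  have h2 := mixed hk' hC (m := k + k) (fun _ => (1 : ℝ)) (fun _ => zero_le_one)
    (by
      simp only [Finset.sum_const, Finset.card_univ, Fintype.card_fin, nsmul_eq_mul, mul_one]
      push_cast
      ring) T (by linarith) x
    (by
      intro j
      refine Fin.addCases (fun i => ?_) (fun i => ?_) j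
      · rw [hx, Fin.append_left]
        exact ha i
      · rw [hx, Fin.append_right, abs_neg]
        exact hb i)
  have h1 : ‖∫ t in (0 : ℝ)..T, ∏ j, (riemannZeta (1 / 2 + Complex.I * a j + Complex.I * t) *
      riemannZeta (1 / 2 + Complex.I * b j - Complex.I * t))‖ ≤
      ∫ t in (0 : ℝ)..T, ∏ j, Z (t + x j) ^ (1 : ℝ) := by
    refine (intervalIntegral.norm_integral_le_integral_norm hT0.le).trans (le_of_eq ?_)
    refine intervalIntegral.integral_congr fun t _ => ?_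
    simp only [Real.rpow_one]
    rw [Fin.prod_univ_add, norm_prod, ← Finset.prod_mul_distrib]
    refine Finset.prod_congr rfl fun j _ => ?_
    rw [norm_mul, hx, Fin.append_left, Fin.append_right]
    have e1 : (1 / 2 + Complex.I * a j + Complex.I * t : ℂ) =
        1 / 2 + ((t + a j : ℝ) : ℂ) * Complex.I := by
      push_cast
      ring
    have e2 : (1 / 2 + Complex.I * b j - Complex.I * t : ℂ) =
        1 / 2 + ((-(t + -b j) : ℝ) : ℂ) * Complex.I := by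
      push_cast
      ring
    have e3 : ‖riemannZeta (1 / 2 + Complex.I * a j + Complex.I * t)‖ = Z (t + a j) := by
      rw [e1]
      rfl
    have e4 : ‖riemannZeta (1 / 2 + Complex.I * b j - Complex.I * t)‖ = Z (t + -b j) := by
      rw [e2, ← Z_neg (t + -b j)]
      rfl
    rw [e3, e4]
  unfold QS
  rw [norm_mul, norm_mul, norm_inv, norm_inv, norm_pow, Complex.norm_real, Complex.norm_real,
    Real.norm_of_nonneg hT0.le, Real.norm_of_nonneg hl0.le]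
  have h3 : ((Real.log T) ^ (k ^ 2))⁻¹ ≤ 1 := inv_le_one_of_one_le₀ (one_le_pow₀ hlog)
  have h4 : 0 ≤ ((Real.log T) ^ (k ^ 2))⁻¹ := by positivity
  have h5 := h1.trans h2
  have h6 : T⁻¹ * ((Real.log T) ^ (k ^ 2))⁻¹ ≤ T⁻¹ * 1 :=
    mul_le_mul_of_nonneg_left h3 (by positivity)
  have h7 : 0 ≤ 2 * 2 ^ θ * C * T ^ θ := (norm_nonneg _).trans h5
  refine (mul_le_mul h6 h5 (norm_nonneg _) (by positivity)).trans (le_of_eq ?_)
  rw [Real.rpow_sub_one hT0.ne']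
  ring

/-- `k = 3, 4, 5` -/
theorem every_QS {δ : ℝ} (hδ : 0 < δ) (h4 : Fourth) (h6 : Sixth δ) (h12 : Twelfth) {k : ℕ}
    (hk3 : 3 ≤ k) (hk5 : k ≤ 5) {δ' : ℝ} (hδ' : δ' < δ * ((6 - (k : ℝ)) / 3)) :
    ∃ C : ℝ, ∀ T : ℝ, 3 ≤ T → ∀ a b : Fin k → ℝ, (∀ j, |a j| ≤ T) → (∀ j, |b j| ≤ T) →
      ‖QS k a b T‖ ≤ C * T ^ (((k : ℝ) - 2) / 4 - δ') := by
  have hk3' : (3 : ℝ) ≤ k := by exact_mod_cast hk3
  have hk5' : (k : ℝ) ≤ 5 := by exact_mod_cast hk5
  have e2 : δ * ((6 - (k : ℝ)) / 3) ≤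
      δ * min ((2 * (k : ℝ) - 4) / 2) ((12 - 2 * (k : ℝ)) / 6) := by
    apply mul_le_mul_of_nonneg_left _ hδ.le
    apply le_min
    · linarith
    · linarith
  obtain ⟨C, hC⟩ := every_order hδ h4 h6 h12 (A := 2 * (k : ℝ)) (by linarith) (by linarith)
    (hδ'.trans_le e2)
  refine ⟨2 * 2 ^ (1 + (2 * (k : ℝ) - 4) / 8 - δ') * C, fun T hT a b ha hb => ?_⟩
  have h := QS_bound (k := k) (θ := 1 + (2 * (k : ℝ) - 4) / 8 - δ') (C := C) (by omega) hC T hT
    a b ha hb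
  refine h.trans (le_of_eq ?_)
  congr 2
  ring

end Zmx
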